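import Pool.Agent.W317.DR.Stm

/-!
The numerical parameters of the gadget exist: sizes on the rook graph.
-/

set_option autoImplicit false

namespace Pool.Agent.W337.DR

open Pool.Agent.W317.DR

theorem sum_two_pow {I : Type} [Fintype I] :
    ∑ i : I, 2 ^ ((Fintype.equivFin I i : ℕ)) + 1 = 2 ^ (Fintype.card I) := by
  have h1 : ∑ i : I, 2 ^ ((Fintype.equivFin I i : ℕ)) = ∑ a : Fin (Fintype.card I), 2 ^ (a : ℕ) :=
    Equiv.sum_comp (Fintype.equivFin I) (fun a : Fin (Fintype.card I) => 2 ^ (a : ℕ))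
  rw [h1, Fin.sum_univ_eq_sum_range (fun a => 2 ^ a), Nat.geomSum_eq le_rfl]
  simp
  exact Nat.sub_add_cancel (Nat.one_le_two_pow)

theorem mk {I : Type} [Fintype I] [DecidableEq I] (D r : ℕ) (N : I → Finset I) (hr : 2 ≤ r)
    (hs : ∀ i j, i ∈ N j → j ∈ N i) (hi : ∀ i, i ∉ N i) (hc : ∀ i, (N i).card = D)
    (hfar : ∀ i l, i ≠ l → 6 * r + 40 ≤ (N i \ N l).card) (hD : 6 * r + 40 ≤ D)
    (hb : D + 12 * r + 100 ≤ Fintype.card I) (hev : Even (Fintype.card I))
    (h1 : 3 * D + r + 10 ≤ Fintype.card I) (h2 : (r - 1) * (6 * r + 31) ≤ 2 * D) :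
    ∃ p : Par I, p.r = r := by
  classical
  obtain ⟨β, hβ⟩ : ∃ β, β = Fintype.card I := ⟨_, rfl⟩
  rw [← hβ] at hb hev h1
  obtain ⟨e, he⟩ : ∃ e : I → ℕ, e = fun i => 2 ^ ((Fintype.equivFin I i : ℕ)) := ⟨_, rfl⟩
  obtain ⟨B, hB⟩ : ∃ B, B = ∑ i, e i := ⟨_, rfl⟩
  have hB1 : B + 1 = 2 ^ β := by rw [hB, he, hβ]; exact sum_two_pow
  have hB0 : 1 ≤ B := by
    have : 2 ^ 1 ≤ 2 ^ β := Nat.pow_le_pow_right (by norm_num) (by omega)
    omega
  have hodd : Odd B := by
    have h3 : Even (B + 1) := by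
      rw [hB1]
      exact (Nat.even_pow.2 ⟨even_two, by omega⟩)
    rcases Nat.even_or_odd B with h | h
    · exfalso
      obtain ⟨a, ha⟩ := h
      obtain ⟨b, hb⟩ := h3
      omega
    · exact h
  obtain ⟨s, hsd⟩ : ∃ s : I → ℕ, s = fun j => ∑ i ∈ N j, e i := ⟨_, rfl⟩
  have hsB : ∀ j, s j ≤ B := by
    intro j
    rw [hsd, hB]
    exact Finset.sum_le_sum_of_subset (Finset.subset_univ _)
  have heB : ∀ j, e j ≤ B := by
    intro j
    rw [hB]
    exact Finset.single_le_sum (fun _ _ => Nat.zero_le _) (Finset.mem_univ j)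
  have hss : ∑ j, s j = D * B := by
    rw [hsd, hB, Finset.mul_sum]
    have h3 : ∑ j, ∑ i ∈ N j, e i = ∑ i, ∑ j ∈ N i, e i := by
      apply Finset.sum_comm'
      intro x y
      constructor
      · rintro ⟨_, h⟩
        exact ⟨hs _ _ h, Finset.mem_univ _⟩
      · rintro ⟨h, _⟩
        exact ⟨Finset.mem_univ _, hs _ _ h⟩
    rw [h3]
    apply Finset.sum_congr rfl
    intro i _
    rw [Finset.sum_const, hc, smul_eq_mul]
  have heinj : Function.Injective e := by
    intro a b hab
    rw [he] at hab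
    have h3 := Nat.pow_right_injective le_rfl hab
    have h4 : (Fintype.equivFin I a) = (Fintype.equivFin I b) := Fin.ext h3
    exact (Fintype.equivFin I).injective h4
  -- atoms
  obtain ⟨P, hP⟩ : ∃ P, P = β * B := ⟨_, rfl⟩
  obtain ⟨DB, hDB⟩ : ∃ DB, DB = D * B := ⟨_, rfl⟩
  obtain ⟨P1, hP1⟩ : ∃ P1, P1 = (6 * r + 30) * P := ⟨_, rfl⟩
  obtain ⟨P2, hP2⟩ : ∃ P2, P2 = (D + r + 8) * P := ⟨_, rfl⟩
  obtain ⟨big, hbig⟩ : ∃ big, big = 2 ^ (β + 3) := ⟨_, rfl⟩
  obtain ⟨P3, hP3⟩ : ∃ P3, P3 = β * big := ⟨_, rfl⟩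
  have hBP : B ≤ P := by
    rw [hP]
    exact Nat.le_mul_of_pos_left _ (by omega)
  have hDBP : DB ≤ P := by
    rw [hP, hDB]
    exact Nat.mul_le_mul_right _ (by omega)
  obtain ⟨C, hC⟩ : ∃ C, C = 8 * P1 + 8 * P2 + P3 + big + 4 * β + 32 * P + 2 * r + 100 := ⟨_, rfl⟩
  obtain ⟨G, hG⟩ : ∃ G, (r - 1) * (6 * r + 31) + G = 2 * D + 1 :=
    ⟨2 * D + 1 - (r - 1) * (6 * r + 31), by omega⟩
  have hG1 : 1 ≤ G := by omega
  obtain ⟨H, hH⟩ : ∃ H, 2 * D + 1 + H = β := ⟨β - 2 * D - 1, by omega⟩
  have hH1 : D + r + 9 ≤ H := by omega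
  have hGC : C ≤ G * C := Nat.le_mul_of_pos_left _ hG1
  have hbs : ∀ j, β * s j ≤ P := fun j => by rw [hP]; exact Nat.mul_le_mul_left _ (hsB j)
  have hbe : ∀ j, β * e j ≤ P := fun j => by rw [hP]; exact Nat.mul_le_mul_left _ (heB j)
  have hx : ∀ j, 2 * (C - B) + 2 * (β * e j) - (C + 2 * DB - 2 * (β * s j)) + 2 * B + 2 * DB =
      C + 2 * (β * e j) + 2 * (β * s j) := by
    intro j
    have := hbs j
    have := hbe j
    omega
  have hsumq : ∑ j, (C + 2 * DB - 2 * (β * s j)) = β * C := by
    have h3 : ∑ j, (C + 2 * DB - 2 * (β * s j)) + ∑ j, 2 * (β * s j) = ∑ j : I, (C + 2 * DB) := by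
      rw [← Finset.sum_add_distrib]
      apply Finset.sum_congr rfl
      intro j _
      have := hbs j
      omega
    have h4 : ∑ j, 2 * (β * s j) = 2 * β * DB := by
      rw [← Finset.mul_sum, ← Finset.mul_sum, hss, hDB]
      ring
    have h5 : ∑ j : I, (C + 2 * DB) = β * (C + 2 * DB) := by
      rw [Finset.sum_const, Finset.card_univ, hβ, smul_eq_mul]
    rw [h4, h5] at h3
    have h6 : β * (C + 2 * DB) = β * C + 2 * β * DB := by ring
    omega
  have hsump : ∑ j, (2 * (C - B) + 2 * (β * e j) - (C + 2 * DB - 2 * (β * s j))) = β * C := by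
    have h3 : ∑ j, (2 * (C - B) + 2 * (β * e j) - (C + 2 * DB - 2 * (β * s j))) +
        ∑ j : I, (2 * B + 2 * DB) = ∑ j, (C + 2 * (β * e j) + 2 * (β * s j)) := by
      rw [← Finset.sum_add_distrib]
      apply Finset.sum_congr rfl
      intro j _
      have := hx j
      omega
    have h4 : ∑ j, (C + 2 * (β * e j) + 2 * (β * s j)) = β * C + 2 * (β * B) + 2 * (β * DB) := by
      rw [Finset.sum_add_distrib, Finset.sum_add_distrib, ← Finset.mul_sum, ← Finset.mul_sum,
        ← Finset.mul_sum, ← Finset.mul_sum, hss, ← hB, hDB, Finset.sum_const, Finset.card_univ,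
        hβ, smul_eq_mul]
    have h5 : ∑ j : I, (2 * B + 2 * DB) = 2 * (β * B) + 2 * (β * DB) := by
      rw [Finset.sum_const, Finset.card_univ, ← hβ, smul_eq_mul]
      ring
    rw [h4, h5] at h3
    omega
  refine ⟨{
    D := D
    r := r
    N := N
    x := fun i => 2 * (C - B) + 2 * (β * e i)
    q := fun j => C + 2 * DB - 2 * (β * s j)
    nF := 1 + H * C
    w := (6 * r + 31) * C
    w0 := G * C - 1
    k := 1 + β * C
    big := big
    hh := C + 8 * P
    hl := C - 8 * P
    r_ge := hr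
    N_symm := hs
    N_irr := hi
    N_card := hc
    N_far := hfar
    D_ge := hD
    beta_ge := by rw [← hβ]; exact hb
    q_le := by
      intro i
      have := hbs i
      have := hbe i
      omega
    q_hl := by
      intro i
      have := hbs i
      omega
    q_hh := by
      intro i
      have := hbs i
      omega
    p_hl := by
      intro i
      have := hbs i
      have := hbe i
      omega
    p_hh := by
      intro i
      have := hbs i
      have := hbe i
      omega
    x_hh := by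
      intro i
      have := hbe i
      omega
    hh_hl := by omega
    x_inj := by
      intro a b hab
      simp only at hab
      apply heinj
      have h3 : β * e a = β * e b := by omega
      exact Nat.eq_of_mul_eq_mul_left (by omega) h3
    q_ne := by
      intro j hj
      have h3 := hx j
      have h4 := hbs j
      have h5 : 2 * B + 4 * DB = 2 * (β * e j) + 4 * (β * s j) := by omega
      have h6 : B + 2 * DB = β * e j + 2 * (β * s j) := by omega
      obtain ⟨b, hb2⟩ := hev
      obtain ⟨c, hc2⟩ := hodd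
      have h7 : β * e j = 2 * (b * e j) := by rw [hb2]; ring
      omega
    k_core := by
      intro j
      have h3 : ∑ l ∈ N j, (2 * (C - B) + 2 * (β * e l)) = D * (2 * (C - B)) + 2 * (β * s j) := by
        rw [Finset.sum_add_distrib, Finset.sum_const, hc, smul_eq_mul, ← Finset.mul_sum,
          ← Finset.mul_sum, hsd]
      have h4 : D * (2 * (C - B)) + 2 * DB = 2 * (D * C) := by
        obtain ⟨E, hE⟩ : ∃ E, C = B + E := ⟨C - B, by omega⟩
        rw [hDB, hE, Nat.add_sub_cancel_left]
        ring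
      have h5 := hbs j
      have h6 : β * C = 2 * (D * C) + C + H * C := by rw [← hH]; ring
      rw [h3]
      omega
    k_a := by
      rw [hsump]
    k_b := by
      rw [hsumq]
    k_f := by
      have h3 : β * C = (r - 1) * ((6 * r + 31) * C) + G * C + H * C := by
        rw [← hH, ← hG]; ring
      omega
    w_gt := by
      have h3 : (6 * r + 30) * (C + 8 * P) = (6 * r + 30) * C + 8 * P1 := by rw [hP1]; ring
      have h4 : (6 * r + 31) * C = (6 * r + 30) * C + C := by ring
      omega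
    nF_gt := by
      have h3 : (6 * r + 30) * (C + 8 * P) = (6 * r + 30) * C + 8 * P1 := by rw [hP1]; ring
      have h4 : (6 * r + 31) * C = (6 * r + 30) * C + C := by ring
      have h5 : (6 * r + 31) * C ≤ H * C := Nat.mul_le_mul_right _ (by omega)
      omega
    early := by
      have h3 : (D + r + 8) * (C + 8 * P) = (D + r + 8) * C + 8 * P2 := by rw [hP2]; ring
      have h4 : (D + r + 9) * C = (D + r + 8) * C + C := by ring
      have h5 : (D + r + 9) * C ≤ H * C := Nat.mul_le_mul_right _ (by omega)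
      rw [← hβ, ← hP3]
      omega
    big_ge := by rw [← hβ, hbig]
    hl_ge := by
      rw [← hβ, ← hbig]
      omega
    w0_ge := by omega }, rfl⟩

/-- the rook neighbourhood -/
def rook (L : ℕ) (j : Fin L × Fin L) : Finset (Fin L × Fin L) :=
  Finset.univ.filter (fun i => i ≠ j ∧ (i.1 = j.1 ∨ i.2 = j.2))

theorem rook_card (L : ℕ) (j : Fin L × Fin L) : (rook L j).card = 2 * (L - 1) := by
  have h1 : rook L j = ((Finset.univ.erase j.2).image (fun y => (j.1, y))) ∪
      ((Finset.univ.erase j.1).image (fun x => (x, j.2))) := by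
    ext ⟨a, b⟩
    obtain ⟨c, d⟩ := j
    simp only [rook, Finset.mem_filter, Finset.mem_univ, true_and, Finset.mem_union,
      Finset.mem_image, Finset.mem_erase, Prod.mk.injEq, ne_eq, and_true]
    constructor
    · rintro ⟨h, h2⟩
      by_cases hac : a = c
      · left
        refine ⟨b, ?_, hac.symm, rfl⟩
        intro hbd
        exact h ⟨hac, hbd⟩
      · right
        rcases h2 with h2 | h2
        · exact absurd h2 hac
        · exact ⟨a, hac, rfl, h2.symm⟩
    · rintro (⟨y, hy, h3, h4⟩ | ⟨x, hx, h3, h4⟩)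
      · subst h3 h4
        exact ⟨fun h => hy h.2, Or.inl rfl⟩
      · subst h3 h4
        exact ⟨fun h => hx h.1, Or.inr rfl⟩
  rw [h1, Finset.card_union_of_disjoint, Finset.card_image_of_injective,
    Finset.card_image_of_injective, Finset.card_erase_of_mem (Finset.mem_univ _),
    Finset.card_erase_of_mem (Finset.mem_univ _), Finset.card_univ, Fintype.card_fin]
  · ring
  · intro a b hab
    exact (Prod.mk.inj hab).1
  · intro a b hab
    exact (Prod.mk.inj hab).2
  · rw [Finset.disjoint_left]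
    rintro ⟨a, b⟩ h3 h4
    simp only [Finset.mem_image, Finset.mem_erase, Finset.mem_univ, and_true, Prod.mk.injEq] at h3 h4
    obtain ⟨y, hy, h5, h6⟩ := h3
    obtain ⟨x, hx, h7, h8⟩ := h4
    exact hx (by rw [h7, h5])

theorem rook_far (L : ℕ) (i l : Fin L × Fin L) (hil : i ≠ l) :
    L - 2 ≤ (rook L i \ rook L l).card := by
  by_cases h : i.1 = l.1
  · have h2 : i.2 ≠ l.2 := fun h3 => hil (Prod.ext h h3)
    have h3 : ((Finset.univ.erase i.1).image (fun x => (x, i.2))) ⊆ rook L i \ rook L l := by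
      rintro ⟨a, b⟩ hab
      simp only [Finset.mem_image, Finset.mem_erase, Finset.mem_univ, and_true,
        Prod.mk.injEq] at hab
      obtain ⟨x, hx, h5, h6⟩ := hab
      subst h5 h6
      simp only [rook, Finset.mem_sdiff, Finset.mem_filter, Finset.mem_univ, true_and, not_and]
      refine ⟨⟨fun h7 => hx (by rw [← h7]), Or.inr trivial⟩, ?_⟩
      intro _ h7
      rcases h7 with h7 | h7
      · exact hx (by rw [h7, h])
      · exact h2 h7
    have h4 := Finset.card_le_card h3
    rw [Finset.card_image_of_injective _ (fun a b hab => (Prod.mk.inj hab).1),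
      Finset.card_erase_of_mem (Finset.mem_univ _), Finset.card_univ, Fintype.card_fin] at h4
    omega
  · have h3 : (((Finset.univ.erase i.2).erase l.2).image (fun y => (i.1, y))) ⊆
        rook L i \ rook L l := by
      rintro ⟨a, b⟩ hab
      simp only [Finset.mem_image, Finset.mem_erase, Finset.mem_univ, and_true,
        Prod.mk.injEq] at hab
      obtain ⟨y, ⟨hy1, hy2⟩, h5, h6⟩ := hab
      subst h5 h6
      simp only [rook, Finset.mem_sdiff, Finset.mem_filter, Finset.mem_univ, true_and, not_and]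
      refine ⟨⟨fun h7 => hy2 (by rw [← h7]), Or.inl trivial⟩, ?_⟩
      intro _ h7
      rcases h7 with h7 | h7
      · exact h h7
      · exact hy1 h7
    have h4 := Finset.card_le_card h3
    rw [Finset.card_image_of_injective _ (fun a b hab => (Prod.mk.inj hab).2)] at h4
    have h5 : (Finset.univ.erase i.2).card - 1 ≤ ((Finset.univ.erase i.2).erase l.2).card :=
      Finset.pred_card_le_card_erase
    rw [Finset.card_erase_of_mem (Finset.mem_univ _), Finset.card_univ, Fintype.card_fin] at h5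
    omega

theorem par : S_PAR := by
  intro r hr
  obtain ⟨M, hM⟩ : ∃ M, M = 100 * (r * (6 * r + 31)) + 1000 := ⟨_, rfl⟩
  have hrr : r * (6 * r + 31) = (r - 1) * (6 * r + 31) + (6 * r + 31) := by
    obtain ⟨a, rfl⟩ : ∃ a, r = a + 1 := ⟨r - 1, by omega⟩
    rw [Nat.add_sub_cancel]
    ring
  refine ⟨2 * M, ?_⟩
  have hcard : Fintype.card (Fin (2 * M) × Fin (2 * M)) = 4 * (M * M) := by
    rw [Fintype.card_prod, Fintype.card_fin]
    ring
  have hMM : 1000 * M ≤ M * M := Nat.mul_le_mul_right _ (by omega)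
  apply mk (2 * (2 * M - 1)) r (rook (2 * M)) hr
  · intro i j h
    simp only [rook, Finset.mem_filter, Finset.mem_univ, true_and] at h ⊢
    exact ⟨h.1.symm, by rcases h.2 with h | h; exact Or.inl h.symm; exact Or.inr h.symm⟩
  · intro i h
    simp only [rook, Finset.mem_filter, Finset.mem_univ, true_and] at h
    exact h.1 rfl
  · exact rook_card _
  · intro i l hil
    have := rook_far (2 * M) i l hil
    omega
  · omega
  · rw [hcard]; omega
  · rw [hcard]; exact ⟨2 * (M * M), by ring⟩
  · rw [hcard]; omega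
  · omega

end Pool.Agent.W337.DR
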