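import Pool.Agent.W317.DR.Stm

/-!
Strategy stealing on the infinite board: the second player has no winning strategy.
-/

set_option autoImplicit false

namespace Pool.Agent.W337.DR

open Pool.Agent.W317.DR

/-- the play in which every move is computed from the history by `g` -/
noncomputable def play {α : Type} (g : List α → α) (i : ℕ) : α :=
  g (List.ofFn (fun j : Fin i => play g j.1))
termination_by i
decreasing_by exact j.2

theorem play_eq {α : Type} (g : List α → α) (i : ℕ) :
    play g i = g (List.ofFn (fun j : Fin i => play g j.1)) := by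
  rw [play]

theorem mem_hist {α : Type} (m : ℕ → α) (i : ℕ) (x : α) :
    x ∈ List.ofFn (fun j : Fin i => m j.1) ↔ ∃ j < i, m j = x := by
  rw [List.mem_ofFn]
  constructor
  · rintro ⟨j, hj⟩
    exact ⟨j.1, j.2, hj⟩
  · rintro ⟨j, hj, h⟩
    exact ⟨⟨j, hj⟩, h⟩

theorem hist_congr {α : Type} (m m' : ℕ → α) (i : ℕ) (h : ∀ j < i, m j = m' j) :
    List.ofFn (fun j : Fin i => m j.1) = List.ofFn (fun j : Fin i => m' j.1) := by
  congr 1
  funext j
  exact h j.1 j.2

section abstract_game

variable {α : Type} [DecidableEq α] (Cell : α → Prop) (fresh : List α → α)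
  (hf : ∀ l, Cell (fresh l) ∧ fresh l ∉ l)

open Classical in
/-- the corrected strategy -/
noncomputable def fix (t : List α → α) (l : List α) : α :=
  if Cell (t l) ∧ t l ∉ l then t l else fresh l

include hf in
theorem fix_legal (t : List α → α) (l : List α) :
    Cell (fix Cell fresh t l) ∧ fix Cell fresh t l ∉ l := by
  unfold fix
  split_ifs with h
  · exact h
  · exact hf l

/-- a strategy of the second player wins -/
def WinS (W : (α → Prop) → Prop) (t : List α → α) : Prop :=
  ∀ m : ℕ → α,
    (∀ i : ℕ, Odd i → m i = t (List.ofFn (fun j : Fin i => m j.1))) →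
    (∀ i : ℕ, Even i → Cell (m i) ∧ ∀ j < i, m j ≠ m i) →
    ∃ N : ℕ, Odd N ∧
      (∀ i ≤ N, Odd i → Cell (m i) ∧ ∀ j < i, m j ≠ m i) ∧
      W (fun c => ∃ i ≤ N, Odd i ∧ m i = c) ∧
      ¬ W (fun c => ∃ i < N, Even i ∧ m i = c)

include hf in
theorem fix_wins (W : (α → Prop) → Prop)
    (t : List α → α) (h : WinS Cell W t) : WinS Cell W (fix Cell fresh t) := by
  classical
  intro m hm1 hm2
  by_cases hall : ∀ i, Odd i → Cell (t (List.ofFn (fun j : Fin i => m j.1))) ∧
      t (List.ofFn (fun j : Fin i => m j.1)) ∉ List.ofFn (fun j : Fin i => m j.1)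
  · apply h m _ hm2
    intro i hi
    rw [hm1 i hi]
    unfold fix
    rw [if_pos (hall i hi)]
  · push Not at hall
    have hex : ∃ i, Odd i ∧ ¬ (Cell (t (List.ofFn (fun j : Fin i => m j.1))) ∧
      t (List.ofFn (fun j : Fin i => m j.1)) ∉ List.ofFn (fun j : Fin i => m j.1)) := by
      obtain ⟨i, hi, h2⟩ := hall
      refine ⟨i, hi, ?_⟩
      rintro ⟨h3, h4⟩
      exact h4 (h2 h3)
    obtain ⟨i0, ⟨hi0, hbad⟩, hmin⟩ : ∃ i0, (Odd i0 ∧ ¬ (Cell (t (List.ofFn (fun j : Fin i0 => m j.1))) ∧
      t (List.ofFn (fun j : Fin i0 => m j.1)) ∉ List.ofFn (fun j : Fin i0 => m j.1))) ∧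
      ∀ i < i0, ¬ (Odd i ∧ ¬ (Cell (t (List.ofFn (fun j : Fin i => m j.1))) ∧
      t (List.ofFn (fun j : Fin i => m j.1)) ∉ List.ofFn (fun j : Fin i => m j.1))) :=
      ⟨Nat.find hex, Nat.find_spec hex, fun i hi => Nat.find_min hex hi⟩
    let g : List α → α := fun l => if Odd l.length then t l else
      if l.length < i0 then m l.length else fresh l
    have hg : ∀ i, play g i = if Odd i then t (List.ofFn (fun j : Fin i => play g j.1)) else
      if i < i0 then m i else fresh (List.ofFn (fun j : Fin i => play g j.1)) := by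
      intro i
      rw [play_eq]
      simp only [g, List.length_ofFn]
    have hag : ∀ i < i0, play g i = m i := by
      intro i
      induction i using Nat.strong_induction_on with
      | _ i ih =>
        intro hi
        rw [hg]
        by_cases ho : Odd i
        · rw [if_pos ho, hist_congr _ m i (fun j hj => ih j hj (by omega))]
          rw [hm1 i ho]
          unfold fix
          rw [if_pos]
          by_contra hc
          exact hmin i hi ⟨ho, hc⟩
        · rw [if_neg ho, if_pos hi]
    obtain ⟨N, hN1, hN2, hN3, hN4⟩ := h (play g) (by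
        intro i hi
        rw [hg, if_pos hi]) (by
        intro i hi
        by_cases hlt : i < i0
        · rw [hag i hlt]
          refine ⟨(hm2 i hi).1, ?_⟩
          intro j hj
          rw [hag j (by omega)]
          exact (hm2 i hi).2 j hj
        · rw [hg, if_neg (Nat.not_odd_iff_even.2 hi), if_neg hlt]
          refine ⟨(hf _).1, ?_⟩
          intro j hj hh
          exact (hf (List.ofFn (fun j : Fin i => play g j.1))).2
            ((mem_hist (play g) i _).2 ⟨j, hj, hh⟩))
    have hNi : N < i0 := by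
      by_contra hc
      push Not at hc
      have h1 := hN2 i0 hc hi0
      rw [hg, if_pos hi0, hist_congr _ m i0 (fun j hj => hag j hj)] at h1
      refine hbad ⟨h1.1, ?_⟩
      intro hmem
      obtain ⟨j, hj, hje⟩ := (mem_hist m i0 _).1 hmem
      exact h1.2 j hj (by rw [hag j hj, hje])
    refine ⟨N, hN1, ?_, ?_, ?_⟩
    · intro i hi hio
      have := hN2 i hi hio
      rw [hag i (by omega)] at this
      refine ⟨this.1, ?_⟩
      intro j hj
      have h3 := this.2 j hj
      rwa [hag j (by omega)] at h3
    · have e1 : (fun c => ∃ i ≤ N, Odd i ∧ play g i = c) = (fun c => ∃ i ≤ N, Odd i ∧ m i = c) := by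
        funext c
        apply propext
        constructor
        · rintro ⟨i, a, b, d⟩
          exact ⟨i, a, b, by rw [← hag i (by omega), d]⟩
        · rintro ⟨i, a, b, d⟩
          exact ⟨i, a, b, by rw [hag i (by omega), d]⟩
      rwa [e1] at hN3
    · have e1 : (fun c => ∃ i < N, Even i ∧ play g i = c) =
          (fun c => ∃ i < N, Even i ∧ m i = c) := by
        funext c
        apply propext
        constructor
        · rintro ⟨i, a, b, d⟩
          exact ⟨i, a, b, by rw [← hag i (by omega), d]⟩
        · rintro ⟨i, a, b, d⟩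
          exact ⟨i, a, b, by rw [hag i (by omega), d]⟩
      rwa [e1] at hN4

include hf in
theorem steal (W : (α → Prop) → Prop)
    (hW : ∀ s t : α → Prop, (∀ c, s c → t c) → W s → W t) (t : List α → α) :
    ¬ WinS Cell W t := by
  classical
  intro h0
  have h := fix_wins Cell fresh hf W t h0
  have hfix := fix_legal Cell fresh hf t
  set σ := fix Cell fresh t with hσ
  -- the imaginary play attached to a real play
  let gn : (ℕ → α) → List α → α := fun μ l => if Odd l.length then σ l else μ (l.length + 1)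
  have hgn : ∀ μ i, play (gn μ) i =
      if Odd i then σ (List.ofFn (fun j : Fin i => play (gn μ) j.1)) else μ (i + 1) := by
    intro μ i
    rw [play_eq]
    simp only [gn, List.length_ofFn]
  have hgn_congr : ∀ (μ μ' : ℕ → α) (K : ℕ), (∀ j < K, μ j = μ' j) →
      ∀ i, (Odd i → i < K) → (Even i → i + 1 < K) → i < K →
        play (gn μ) i = play (gn μ') i := by
    intro μ μ' K hK i
    induction i using Nat.strong_induction_on with
    | _ i ih =>
      intro h1 h2 h3
      rw [hgn, hgn]
      by_cases ho : Odd i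
      · rw [if_pos ho, if_pos ho]
        congr 1
        apply hist_congr
        intro j hj
        apply ih j hj (fun _ => by omega) _ (by omega)
        intro hje
        obtain ⟨a, ha⟩ := ho
        obtain ⟨b, hb⟩ := hje
        omega
      · rw [if_neg ho, if_neg ho]
        exact hK _ (h2 (Nat.not_odd_iff_even.1 ho))
  -- the real play
  let gm : List α → α := fun P => if Odd P.length then σ P else
    if P.length = 0 then fresh P else
      if play (gn (fun j => P.getD j (fresh []))) (P.length - 1) ∈ P then fresh P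
      else play (gn (fun j => P.getD j (fresh []))) (P.length - 1)
  set m : ℕ → α := play gm with hm
  set n : ℕ → α := play (gn m) with hn
  have hmo : ∀ i, Odd i → m i = σ (List.ofFn (fun j : Fin i => m j.1)) := by
    intro i hi
    rw [hm, play_eq]
    simp only [gm, List.length_ofFn]
    rw [if_pos hi]
  have hm0 : m 0 = fresh (List.ofFn (fun j : Fin 0 => m j.1)) := by
    rw [hm, play_eq]
    simp [gm]
  have hm2 : ∀ i, m (2 * i + 2) = if n (2 * i + 1) ∈ List.ofFn (fun j : Fin (2 * i + 2) => m j.1)
      then fresh (List.ofFn (fun j : Fin (2 * i + 2) => m j.1)) else n (2 * i + 1) := by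
    intro i
    have hno : ¬ Odd (2 * i + 2) := by
      rw [Nat.not_odd_iff_even]
      exact ⟨i + 1, by ring⟩
    have key : play (gn (fun j => (List.ofFn (fun j : Fin (2 * i + 2) => m j.1)).getD j
        (fresh []))) (2 * i + 1) = n (2 * i + 1) := by
      rw [hn]
      refine hgn_congr (fun j => (List.ofFn (fun j : Fin (2 * i + 2) => m j.1)).getD j
        (fresh [])) m (2 * i + 2) ?_ (2 * i + 1) ?_ ?_ ?_
      · intro j hj
        simp only [List.getD_eq_getElem?_getD, List.getElem?_ofFn, hj, dif_pos]
        rfl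
      · intro _
        omega
      · intro he
        obtain ⟨a, ha⟩ := he
        omega
      · omega
    have e1 : m (2 * i + 2) = gm (List.ofFn (fun j : Fin (2 * i + 2) => m j.1)) := by
      rw [hm, play_eq]
    rw [e1]
    simp only [gm, List.length_ofFn]
    rw [if_neg hno, if_neg (by omega)]
    have e2 : 2 * i + 2 - 1 = 2 * i + 1 := by omega
    rw [e2, key]
  have hno : ∀ i, Odd i → n i = σ (List.ofFn (fun j : Fin i => n j.1)) := by
    intro i hi
    rw [hn, hgn, if_pos hi]
  have hne : ∀ i, Even i → n i = m (i + 1) := by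
    intro i hi
    rw [hn, hgn, if_neg (Nat.not_odd_iff_even.2 hi)]
  have hnnew : ∀ i, Odd i → ∀ j < i, n j ≠ n i := by
    intro i hi j hj hh
    have := (hfix (List.ofFn (fun j : Fin i => n j.1))).2
    rw [← hno i hi] at this
    exact this ((mem_hist n i _).2 ⟨j, hj, hh⟩)
  have hmnew : ∀ i, Cell (m i) ∧ ∀ j < i, m j ≠ m i := by
    intro i
    by_cases ho : Odd i
    · have h1 := hfix (List.ofFn (fun j : Fin i => m j.1))
      rw [← hmo i ho] at h1
      refine ⟨h1.1, ?_⟩
      intro j hj hh
      exact h1.2 ((mem_hist m i _).2 ⟨j, hj, hh⟩)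
    · rw [Nat.not_odd_iff_even] at ho
      obtain ⟨a, ha⟩ := ho
      rcases a with _ | a
      · have hi0 : i = 0 := by omega
        subst hi0
        refine ⟨?_, fun j hj => absurd hj (by omega)⟩
        rw [hm0]
        exact (hf _).1
      · have hi2 : i = 2 * a + 2 := by omega
        subst hi2
        rw [hm2 a]
        split_ifs with hc
        · refine ⟨(hf _).1, ?_⟩
          intro j hj hh
          exact (hf (List.ofFn (fun j : Fin (2 * a + 2) => m j.1))).2
            ((mem_hist m _ _).2 ⟨j, hj, hh⟩)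
        · refine ⟨?_, ?_⟩
          · have h1 := hfix (List.ofFn (fun j : Fin (2 * a + 1) => n j.1))
            rw [← hno (2 * a + 1) ⟨a, rfl⟩] at h1
            exact h1.1
          · intro j hj hh
            exact hc ((mem_hist m _ _).2 ⟨j, hj, hh⟩)
  have hminj : ∀ i j, m i = m j → i = j := by
    intro i j hij
    rcases lt_trichotomy i j with h1 | h1 | h1
    · exact absurd hij ((hmnew j).2 i h1)
    · exact h1
    · exact absurd hij.symm ((hmnew i).2 j h1)
  have hown : ∀ i, Odd i → ∃ j ≤ i + 1, Even j ∧ m j = n i := by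
    intro i hi
    obtain ⟨a, ha⟩ := id hi
    subst ha
    have h1 := hm2 a
    split_ifs at h1 with hc
    · obtain ⟨j, hj, hje⟩ := (mem_hist m _ _).1 hc
      rcases Nat.even_or_odd j with he | ho
      · exact ⟨j, by omega, he, hje⟩
      · exfalso
        obtain ⟨b, hb⟩ := ho
        have h2 : n (2 * b) = m (2 * b + 1) := hne (2 * b) ⟨b, by ring⟩
        refine hnnew (2 * a + 1) ⟨a, rfl⟩ (2 * b) (by omega) ?_
        rw [h2, ← hb, hje]
    · exact ⟨2 * a + 2, by omega, ⟨a + 1, by ring⟩, h1⟩
  obtain ⟨N, hN1, hN2, hN3, hN4⟩ := h m hmo (fun i _ => hmnew i)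
  obtain ⟨K, hK1, hK2, hK3, hK4⟩ := h n hno (by
    intro i hi
    rw [hne i hi]
    refine ⟨(hmnew _).1, ?_⟩
    intro j hj hh
    rcases Nat.even_or_odd j with he | ho
    · rw [hne j he] at hh
      have := hminj _ _ hh
      omega
    · obtain ⟨j', hj', hje, hjm⟩ := hown j ho
      rw [← hjm] at hh
      have := hminj _ _ hh
      obtain ⟨a, ha⟩ := hi
      obtain ⟨b, hb⟩ := hje
      omega)
  have hNK : K < N := by
    by_contra hc
    push Not at hc
    refine hK4 (hW _ _ ?_ hN3)
    rintro c ⟨i, hi1, hi2, hi3⟩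
    obtain ⟨a, ha⟩ := hi2
    refine ⟨i - 1, by omega, ⟨a, by omega⟩, ?_⟩
    rw [hne (i - 1) ⟨a, by omega⟩, ← hi3]
    congr 1
    omega
  refine hN4 (hW _ _ ?_ hK3)
  rintro c ⟨i, hi1, hi2, hi3⟩
  obtain ⟨j, hj1, hj2, hj3⟩ := hown i hi2
  refine ⟨j, ?_, hj2, by rw [hj3, hi3]⟩
  obtain ⟨a, ha⟩ := hN1
  obtain ⟨b, hb⟩ := hK1
  obtain ⟨d, hd⟩ := hj2
  omega

end abstract_game

theorem exists_fresh (k : ℕ) (hk : 1 ≤ k) (l : List (Finset ℕ)) :
    ∃ s : Finset ℕ, s.card = k ∧ s ∉ l := by
  have hinj : Function.Injective (fun s : ℕ => Finset.Ico s (s + k)) := by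
    intro a b hab
    replace hab : Finset.Ico a (a + k) = Finset.Ico b (b + k) := hab
    have h1 : a ∈ Finset.Ico a (a + k) := by simp; omega
    have h2 : b ∈ Finset.Ico b (b + k) := by simp; omega
    rw [hab] at h1
    rw [← hab] at h2
    simp at h1 h2
    omega
  obtain ⟨x, hx1, hx2⟩ := (Set.infinite_range_of_injective hinj).exists_notMem_finset l.toFinset
  obtain ⟨s, rfl⟩ := hx1
  refine ⟨Finset.Ico s (s + k), by simp, ?_⟩
  intro h
  exact hx2 (List.mem_toFinset.2 h)

theorem sl : S_SL := by
  intro k n H hk hne hcard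
  rintro ⟨t, ht⟩
  choose fresh hfresh using exists_fresh k hk
  refine steal (fun s : Finset ℕ => s.card = k) fresh hfresh
    (fun S => ∃ f : Fin n → ℕ, Function.Injective f ∧ ∀ e ∈ H, S (e.image f)) ?_ t ?_
  · rintro s u hsu ⟨f, hf1, hf2⟩
    exact ⟨f, hf1, fun e he => hsu _ (hf2 e he)⟩
  · exact ht

end Pool.Agent.W337.DR
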